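import Pool.Agent.DRC.CyTor

set_option autoImplicit false

/-!
# Torsors and classes for the Dwork pencils, main theorems
-/

open scoped BigOperators

namespace Pool.Agent.DRC

open Pool.Agent.HGP (Ix Simil)
open Pool.Agent.CYP (Rm Qm Tors Per)
open Pool.Agent.CYP.FMAT_ (eq2)
open Pool.Agent.UBD (Pt Crd Pol ev InG GrpS Dns Inf1 Stmt_UB)
open Pool.Agent.DRD (torsor invariant pinv mul_pinv pinv_mul)
open Pool.Agent.DRH (tact tact_tact tact_one tact_smul_right)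

noncomputable section

variable {r : ℕ} {g : Fin r → ℕ} {ψ : Fin r → ℚ}

lemma to_fr (B : Bas g ψ) (Y : ∀ l, Matrix (Ix (g l)) (Ix (g l)) ℂ) :
    toIx B.F (frIx B.E Y) = Y := by
  funext l
  unfold frIx toIx
  rw [← Matrix.mul_assoc, ← Matrix.transpose_mul, map_EF, Matrix.transpose_one, Matrix.one_mul]
  ext a b
  simp

/-- The transformed point. -/
def cp (B : Bas g ψ) : Pt g :=
  (2 * Real.pi * Complex.I, toIx B.F (fun l => Per (2 * g l) (ψ l)))

lemma cp_rel (B : Bas g ψ) (hT : ∀ l, Tors (2 * g l) (ψ l) (2 * Real.pi * Complex.I)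
    (Per (2 * g l) (ψ l))) (l : Fin r) :
    ((cp B).2 l).transpose * Matrix.J (Fin (g l)) ℂ * (cp B).2 l =
      ((cp B).1 ^ wt g l) • (((Qm (2 * g l) ℚ).submatrix (eq2 (g l)) (eq2 (g l))).map
        (fun q : ℚ => (q : ℂ))) :=
  tors_to B _ (fun l => Per (2 * g l) (ψ l)) l (hT l)

lemma Qm_map (n : ℕ) : (Qm n ℚ).map (fun q : ℚ => (q : ℂ)) = Qm n ℂ := by
  ext a b
  simp only [Matrix.map_apply, Qm, Matrix.of_apply]
  split_ifs <;> push_cast <;> ring

lemma cp_det (B : Bas g ψ) (hT : ∀ l, Tors (2 * g l) (ψ l) (2 * Real.pi * Complex.I)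
    (Per (2 * g l) (ψ l))) (hQ : ∀ n, Even n → (Qm n ℂ).det ≠ 0) (l : Fin r) :
    ((cp B).2 l).det ≠ 0 := by
  intro h0
  have h1 := congrArg Matrix.det (cp_rel B hT l)
  rw [Matrix.det_mul, Matrix.det_mul, h0, mul_zero, Matrix.det_smul] at h1
  have h2 : (((Qm (2 * g l) ℚ).submatrix (eq2 (g l)) (eq2 (g l))).map
      (fun q : ℚ => (q : ℂ))).det ≠ 0 := by
    have h3 : ((Qm (2 * g l) ℚ).submatrix (eq2 (g l)) (eq2 (g l))).map
      (fun q : ℚ => (q : ℂ)) = (Qm (2 * g l) ℂ).submatrix (eq2 (g l)) (eq2 (g l)) := by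
      rw [← Qm_map]
      rfl
    rw [h3, Matrix.det_submatrix_equiv_self]
    exact hQ _ (even_two_mul _)
  have h4 : (cp B).1 ≠ 0 := Complex.two_pi_I_ne_zero
  exact mul_ne_zero (pow_ne_zero _ (pow_ne_zero _ h4)) h2 h1.symm

/-- The relations for the transformed point. -/
lemma cp_hrel (B : Bas g ψ) (hT : ∀ l, Tors (2 * g l) (ψ l) (2 * Real.pi * Complex.I)
    (Per (2 * g l) (ψ l))) (D₀ : ℕ) (L : IntermediateField ℚ ℂ)
    (hrel : ∀ P : MvPolynomial (Crf g) L, P.totalDegree ≤ D₀ →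
      MvPolynomial.aeval (CYP.tpt (n := fun l => 2 * g l) (2 * Real.pi * Complex.I)
        (fun l => Per (2 * g l) (ψ l))) P = (0 : ℂ) →
      ∀ (lam : ℂ) (X : ∀ l, Matrix (Fin (2 * g l)) (Fin (2 * g l)) ℂ), lam ≠ 0 →
        (∀ l, Tors (2 * g l) (ψ l) lam (X l)) →
        MvPolynomial.aeval (CYP.tpt (n := fun l => 2 * g l) lam X) P = (0 : ℂ))
    (P : MvPolynomial (Crd g) L) (hP : P.totalDegree ≤ D₀)
    (hP0 : MvPolynomial.aeval (HGP.tpt (cp B).1 (cp B).2) P = (0 : ℂ)) (a : Pt g)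
    (ha : InG (wt g) a) :
    MvPolynomial.aeval (HGP.tpt (a * cp B).1 (a * cp B).2) P = (0 : ℂ) := by
  have hlam : (cp B).1 ≠ 0 := Complex.two_pi_I_ne_zero
  have h1 := hrel (MvPolynomial.bind₁ (sF L B.F) P) (deg_sF L B.F P D₀ hP) (by
    rw [aeval_sF]
    exact hP0) (a * cp B).1 (frIx B.E (a * cp B).2) (mul_ne_zero ha.1 hlam) (fun l => by
      apply tors_fr B
      change (a.2 l * (cp B).2 l).transpose * Matrix.J (Fin (g l)) ℂ * (a.2 l * (cp B).2 l) =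
        ((a.1 * (cp B).1) ^ wt g l) • _
      rw [Matrix.transpose_mul]
      calc ((cp B).2 l).transpose * (a.2 l).transpose * Matrix.J (Fin (g l)) ℂ *
            (a.2 l * (cp B).2 l)
          = ((cp B).2 l).transpose * ((a.2 l).transpose * Matrix.J (Fin (g l)) ℂ * a.2 l) *
            (cp B).2 l := by simp only [Matrix.mul_assoc]
        _ = (a.1 ^ wt g l) • (((cp B).2 l).transpose * Matrix.J (Fin (g l)) ℂ * (cp B).2 l) := by
            rw [show (a.2 l).transpose * Matrix.J (Fin (g l)) ℂ * a.2 l =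
              (a.1 ^ wt g l) • Matrix.J (Fin (g l)) ℂ from ha.2 l, Matrix.mul_smul,
              Matrix.smul_mul]
        _ = _ := by rw [cp_rel B hT, smul_smul, mul_pow])
  rw [aeval_sF, to_fr] at h1
  exact h1

/-- The classes are Hodge classes. -/
theorem cyClass (B : Bas g ψ) (hg : ∀ l, 0 < g l)
    (hT : ∀ l, Tors (2 * g l) (ψ l) (2 * Real.pi * Complex.I) (Per (2 * g l) (ψ l)))
    (hQ : ∀ n, Even n → (Qm n ℂ).det ≠ 0) (D₀ : ℕ)
    (hUB : ∀ H : Set (Pt g), GrpS (wt g) H → Inf1 H → Dns D₀ (wt g) H →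
      ∀ a, InG (wt g) a → a ∈ H)
    (htr : Transcendental ℚ (2 * Real.pi * Complex.I : ℂ))
    (L : IntermediateField ℚ ℂ) (hL : ∀ a ∈ L, IsAlgebraic ℚ a)
    (hrel : ∀ P : MvPolynomial (Crf g) L, P.totalDegree ≤ D₀ →
      MvPolynomial.aeval (CYP.tpt (n := fun l => 2 * g l) (2 * Real.pi * Complex.I)
        (fun l => Per (2 * g l) (ψ l))) P = (0 : ℂ) →
      ∀ (lam : ℂ) (X : ∀ l, Matrix (Fin (2 * g l)) (Fin (2 * g l)) ℂ), lam ≠ 0 →
        (∀ l, Tors (2 * g l) (ψ l) lam (X l)) →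
        MvPolynomial.aeval (CYP.tpt (n := fun l => 2 * g l) lam X) P = (0 : ℂ))
    (n : ℕ) (k : ℤ) (i : Fin n → Fin r) (α : (∀ s, Fin (2 * g (i s))) → ℂ)
    (hα : IsDRB (fun l => 2 * g l) (fun l => (ψ l : ℂ)) L n k i α) :
    IsHodge (fun l => 2 * g l) (fun l => (ψ l : ℂ)) n k i α := by
  classical
  obtain ⟨hαL, hb⟩ := hα
  choose b hb using hb
  let Et : ∀ l, Matrix (Fin (2 * g l)) (Ix (g l)) ℂ :=
    fun l => ((B.E l).map (algebraMap ℚ ℂ)).transpose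
  let Ft : ∀ l, Matrix (Ix (g l)) (Fin (2 * g l)) ℂ :=
    fun l => ((B.F l).map (algebraMap ℚ ℂ)).transpose
  have hEF : ∀ l, Et l * Ft l = 1 := fun l => by
    change ((B.E l).map (algebraMap ℚ ℂ)).transpose * ((B.F l).map (algebraMap ℚ ℂ)).transpose = 1
    rw [← Matrix.transpose_mul, map_FE, Matrix.transpose_one]
  -- tensors
  have t1 : ∀ (N : ∀ l, Matrix (Fin (2 * g l)) (Fin (2 * g l)) ℂ)
      (M : ∀ l, Matrix (Fin (2 * g l)) (Ix (g l)) ℂ) (β : (∀ s, Fin (2 * g (i s))) → ℂ),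
      tact i M (tact i N β) = tact i (fun l => N l * M l) β := fun N M β =>
    tact_tact (ι := fun l => Fin (2 * g l)) (κ := fun l => Fin (2 * g l))
      (τ := fun l => Ix (g l)) i N M β
  have t2 : ∀ (N : ∀ l, Matrix (Fin (2 * g l)) (Ix (g l)) ℂ)
      (M : ∀ l, Matrix (Ix (g l)) (Ix (g l)) ℂ) (β : (∀ s, Fin (2 * g (i s))) → ℂ),
      tact i M (tact i N β) = tact i (fun l => N l * M l) β := fun N M β =>
    tact_tact (ι := fun l => Fin (2 * g l)) (κ := fun l => Ix (g l))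
      (τ := fun l => Ix (g l)) i N M β
  have t3 : ∀ (N : ∀ l, Matrix (Fin (2 * g l)) (Ix (g l)) ℂ)
      (M : ∀ l, Matrix (Ix (g l)) (Fin (2 * g l)) ℂ) (β : (∀ s, Fin (2 * g (i s))) → ℂ),
      tact i M (tact i N β) = tact i (fun l => N l * M l) β := fun N M β =>
    tact_tact (ι := fun l => Fin (2 * g l)) (κ := fun l => Ix (g l))
      (τ := fun l => Fin (2 * g l)) i N M β
  have t0 : ∀ β : (∀ s, Fin (2 * g (i s))) → ℂ,
      tact i (fun l => (1 : Matrix (Fin (2 * g l)) (Fin (2 * g l)) ℂ)) β = β := fun β =>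
    tact_one (ι := fun l => Fin (2 * g l)) i β
  have hback : ∀ β : (∀ s, Fin (2 * g (i s))) → ℂ, tact i Ft (tact i Et β) = β := by
    intro β
    rw [t3]
    have h1 : (fun l => Et l * Ft l) =
        fun l => (1 : Matrix (Fin (2 * g l)) (Fin (2 * g l)) ℂ) := funext hEF
    rw [h1, t0]
  -- the transformed tensor
  set α' : (∀ s, Ix (g (i s))) → ℂ := tact i Et α with hα'
  have hα'L : ∀ I, α' I ∈ L := by
    intro I
    rw [hα']
    unfold tact
    refine sum_mem fun J _ => mul_mem (hαL J) (prod_mem fun s _ => ?_)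
    exact L.algebraMap_mem _
  have hval : ∀ J, tact i (cp B).2 α' J =
      (cp B).1 ^ k * ((b (fun s => eq2 (g (i s)) (J s)) : ℚ) : ℂ) := by
    intro J
    rw [hα', t2]
    have h1 : (fun l => Et l * (cp B).2 l) =
        fun l => (Per (2 * g l) (ψ l)).submatrix id (eq2 (g l)) := by
      funext l
      change Et l * (((B.F l).map (algebraMap ℚ ℂ)).transpose *
        Per (2 * g l) (ψ l)).submatrix id (eq2 (g l)) = _
      have h2 : Et l * (((B.F l).map (algebraMap ℚ ℂ)).transpose *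
        Per (2 * g l) (ψ l)).submatrix id (eq2 (g l)) =
        (Et l * (((B.F l).map (algebraMap ℚ ℂ)).transpose *
        Per (2 * g l) (ψ l))).submatrix id (eq2 (g l)) := rfl
      rw [h2, ← Matrix.mul_assoc]
      have h3 : Et l * ((B.F l).map (algebraMap ℚ ℂ)).transpose = 1 := hEF l
      rw [h3, Matrix.one_mul]
    rw [h1]
    exact hb (fun s => eq2 (g (i s)) (J s))
  have hinv := invariant (w := wt g) D₀ hUB L hL (cp B) htr (cp_det B hT hQ)
    (fun l => (Qm (2 * g l) ℚ).submatrix (eq2 (g l)) (eq2 (g l))) (cp_rel B hT)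
    (fun P hP hP0 a ha => cp_hrel B hT D₀ L hrel P hP hP0 a ha) k i α' hα'L
    (fun J => b (fun s => eq2 (g (i s)) (J s))) hval
  have hI : Inv (fun l => Rm (2 * g l) (ψ l : ℂ)) (wt g) k i α := by
    intro mu h hmu hh
    have h1 := hinv (mu, cj B h) ⟨hmu, fun l => (simil_cj B mu h l).2 (hh l)⟩
    change tact i (cj B h) α' = mu ^ k • α' at h1
    rw [hα', t2] at h1
    have h2 : (fun l => Et l * cj B h l) = fun l => h l * Et l := by
      funext l
      change Et l * (((B.F l).map (algebraMap ℚ ℂ)).transpose * h l *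
        ((B.E l).map (algebraMap ℚ ℂ)).transpose) = _
      have h3 : Et l * ((B.F l).map (algebraMap ℚ ℂ)).transpose = 1 := hEF l
      rw [← Matrix.mul_assoc, ← Matrix.mul_assoc, h3, Matrix.one_mul]
    rw [h2, ← t1, ← tact_smul_right] at h1
    have h4 := congrArg (tact i Ft) h1
    rw [hback, hback] at h4
    exact h4
  refine ⟨fun mu h hmu hh I' => congrFun (hI mu h hmu hh) I', fun I hIne => ?_⟩
  have hw := weight hI I hIne
  have hty := type hI (fun l => (B.F l).map (algebraMap ℚ ℂ))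
    (fun l => (B.E l).map (algebraMap ℚ ℂ)) (fun l => Matrix.J (Fin (g l)) ℂ)
    (map_FE B) (map_EF B) B.rel (fun l => pq (g l)) (fun l a => (a : ℕ))
    (fun l a b hab => J_pq (g l) a b hab) (fun l a b hab => B.tri l a b (by
      intro h0
      apply hab
      rw [Matrix.map_apply, h0, map_zero])) I hIne
  refine ⟨hw, ?_⟩
  change k ≤ ((∑ s, (2 * g (i s) - 1 - (I s : ℕ)) : ℕ) : ℤ)
  have h5 : ∑ s, (2 * g (i s) - 1 - (I s : ℕ)) + ∑ s, (I s : ℕ) = ∑ s, (2 * g (i s) - 1) := by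
    rw [← Finset.sum_add_distrib]
    refine Finset.sum_congr rfl fun s _ => ?_
    have h51 : (I s : ℕ) < 2 * g (i s) := (I s).2
    have h52 := hg (i s)
    omega
  have h6 : ((∑ s, (2 * g (i s) - 1 - (I s : ℕ)) : ℕ) : ℤ) + ((∑ s, (I s : ℕ) : ℕ) : ℤ) =
      ((∑ s, (2 * g (i s) - 1) : ℕ) : ℤ) := by exact_mod_cast h5
  have h7 : ((∑ s, (2 * g (i s) - 1) : ℕ) : ℤ) = 2 * k := hw
  have h8 : ((∑ s, (I s : ℕ) : ℕ) : ℤ) ≤ k := hty
  omega

/-- The conjugated point. -/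
def tp (B : Bas g ψ) (u : Aut (fun l => 2 * g l)) : Pt g :=
  ((u.1 : ℂ), cj B (fun l => (u.2 l : Matrix (Fin (2 * g l)) (Fin (2 * g l)) ℂ)))

lemma tp_mul (B : Bas g ψ) (u v : Aut (fun l => 2 * g l)) : tp B (u * v) = tp B u * tp B v :=
  Prod.ext rfl (funext fun l =>
    cj_mul B (fun l => (u.2 l : Matrix (Fin (2 * g l)) (Fin (2 * g l)) ℂ))
      (fun l => (v.2 l : Matrix (Fin (2 * g l)) (Fin (2 * g l)) ℂ)) l)

lemma tp_one (B : Bas g ψ) : tp B (1 : Aut (fun l => 2 * g l)) = 1 :=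
  Prod.ext rfl (funext fun l => cj_one B l)

lemma tp_inj (B : Bas g ψ) (u v : Aut (fun l => 2 * g l)) (h : tp B u = tp B v) : u = v := by
  apply Prod.ext
  · exact Units.ext (congrArg Prod.fst h)
  · funext l
    apply Units.ext
    have h1 := congrArg (cji B) (congrArg Prod.snd h)
    have h2 := cji_cj B (fun l => (u.2 l : Matrix (Fin (2 * g l)) (Fin (2 * g l)) ℂ))
    have h3 := cji_cj B (fun l => (v.2 l : Matrix (Fin (2 * g l)) (Fin (2 * g l)) ℂ))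
    exact congrFun (h2.symm.trans (h1.trans h3)) l

lemma tp_surj (B : Bas g ψ) (a : Pt g) (h1 : a.1 ≠ 0) (h2 : ∀ l, (a.2 l).det ≠ 0) :
    ∃ u : Aut (fun l => 2 * g l), tp B u = a := by
  have hm : ∀ l, cji B a.2 l * cji B (fun l => (a.2 l)⁻¹) l = 1 := by
    intro l
    rw [← cji_mul]
    have h3 : (fun l => a.2 l * (a.2 l)⁻¹) =
        fun l => (1 : Matrix (Ix (g l)) (Ix (g l)) ℂ) := by
      funext l
      exact Matrix.mul_nonsing_inv _ (isUnit_iff_ne_zero.2 (h2 l))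
    rw [h3]
    unfold cji
    rw [Matrix.mul_one, ← Matrix.transpose_mul, map_FE, Matrix.transpose_one]
  refine ⟨(Units.mk0 a.1 h1, fun l => ⟨cji B a.2 l, cji B (fun l => (a.2 l)⁻¹) l, hm l,
    mul_eq_one_comm.1 (hm l)⟩), Prod.ext rfl ?_⟩
  exact cj_cji B a.2

lemma tp_pinv (B : Bas g ψ) (u : Aut (fun l => 2 * g l)) : pinv (tp B u) = tp B u⁻¹ := by
  have h1 : tp B u * tp B u⁻¹ = 1 := by rw [← tp_mul, mul_inv_cancel, tp_one]
  have h2 : (tp B u).1 ≠ 0 := u.1.ne_zero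
  have h3 : ∀ l, ((tp B u).2 l).det ≠ 0 := by
    intro l h0
    have h4 := congrArg Matrix.det (congrFun (congrArg Prod.snd h1) l)
    have h5 : (tp B u * tp B u⁻¹).2 l = (tp B u).2 l * (tp B u⁻¹).2 l := rfl
    rw [h5, Matrix.det_mul, h0, zero_mul] at h4
    have h6 : ((1 : Pt g).2 l).det = 1 := Matrix.det_one
    rw [h6] at h4
    exact zero_ne_one h4
  calc pinv (tp B u) = pinv (tp B u) * (tp B u * tp B u⁻¹) := by rw [h1, mul_one]
    _ = tp B u⁻¹ := by rw [← mul_assoc, pinv_mul h2 h3, one_mul]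

lemma tp_fr (B : Bas g ψ) (u : Aut (fun l => 2 * g l)) : frIx B.E (tp B u * cp B).2 =
    fun l => (u.2 l : Matrix (Fin (2 * g l)) (Fin (2 * g l)) ℂ) * Per (2 * g l) (ψ l) := by
  have h1 : (tp B u * cp B).2 = toIx B.F (fun l =>
      (u.2 l : Matrix (Fin (2 * g l)) (Fin (2 * g l)) ℂ) * Per (2 * g l) (ψ l)) := by
    rw [to_mul]
    rfl
  rw [h1, fr_to]

/-- The set attached to a group. -/
def Sset (B : Bas g ψ) (H : Subgroup (Aut (fun l => 2 * g l))) : Set (Pt g) :=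
  {y | ∃ u ∈ H, y = tp B u * cp B}

lemma mem_Sset (B : Bas g ψ) (hdet : ∀ l, ((cp B).2 l).det ≠ 0)
    (H : Subgroup (Aut (fun l => 2 * g l))) (u : Aut (fun l => 2 * g l)) :
    tp B u * cp B ∈ Sset B H ↔ u ∈ H := by
  have hc0 : (cp B).1 ≠ 0 := Complex.two_pi_I_ne_zero
  constructor
  · rintro ⟨v, hv, h⟩
    have h1 := congrArg (fun z => z * pinv (cp B)) h
    simp only [mul_assoc, mul_pinv hc0 hdet, mul_one] at h1
    rw [tp_inj B _ _ h1]
    exact hv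
  · intro h
    exact ⟨u, h, rfl⟩

lemma Sset_closed (B : Bas g ψ) (hdet : ∀ l, ((cp B).2 l).det ≠ 0) (L : IntermediateField ℚ ℂ)
    (H : Subgroup (Aut (fun l => 2 * g l))) (E : Set (MvPolynomial (Crf g) L))
    (hE : ∀ x : Aut (fun l => 2 * g l), x ∈ H ↔ ∀ e ∈ E,
      MvPolynomial.aeval (CYP.tpt (n := fun l => 2 * g l) ((x.1 : ℂ) * (2 * Real.pi * Complex.I))
        (fun l => (x.2 l : Matrix (Fin (2 * g l)) (Fin (2 * g l)) ℂ) * Per (2 * g l) (ψ l))) e =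
          (0 : ℂ)) (y : Pt g) (hy1 : y.1 ≠ 0) (hy2 : ∀ i, (y.2 i).det ≠ 0) :
    y ∈ Sset B H ↔ ∀ e ∈ (MvPolynomial.bind₁ (sE L B.E)) '' E,
        MvPolynomial.aeval (HGP.tpt y.1 y.2) e = (0 : ℂ) := by
  have hc0 : (cp B).1 ≠ 0 := Complex.two_pi_I_ne_zero
  have hdinv : ∀ l, (((cp B).2 l)⁻¹).det ≠ 0 := by
    intro l h2
    have h1 := congrArg Matrix.det (Matrix.mul_nonsing_inv ((cp B).2 l)
      (isUnit_iff_ne_zero.2 (hdet l)))
    rw [Matrix.det_mul, Matrix.det_one, h2, mul_zero] at h1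
    exact zero_ne_one h1
  obtain ⟨u, hu⟩ := tp_surj B (y * pinv (cp B)) (mul_ne_zero hy1 (inv_ne_zero hc0)) (fun l => by
    have h5 : (y * pinv (cp B)).2 l = y.2 l * ((cp B).2 l)⁻¹ := rfl
    rw [h5, Matrix.det_mul]
    exact mul_ne_zero (hy2 l) (hdinv l))
  have hyu : y = tp B u * cp B := by
    rw [hu, mul_assoc, pinv_mul hc0 hdet, mul_one]
  rw [hyu, mem_Sset B hdet, hE u]
  have h6 : (tp B u * cp B).1 = (u.1 : ℂ) * (2 * Real.pi * Complex.I) := rfl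
  constructor
  · rintro h e ⟨e', he', rfl⟩
    rw [aeval_sE, tp_fr, h6]
    exact h e' he'
  · intro h e he
    have h1 := h _ ⟨e, he, rfl⟩
    rw [aeval_sE, tp_fr, h6] at h1
    exact h1

lemma Sset_cos (B : Bas g ψ) (hdet : ∀ l, ((cp B).2 l).det ≠ 0)
    (H : Subgroup (Aut (fun l => 2 * g l))) (a b : Pt g) (ha : InG (wt g) a)
    (hb : InG (wt g) b) (ha' : a * cp B ∈ Sset B H) (hb' : b * cp B ∈ Sset B H) :
    a * pinv b * cp B ∈ Sset B H ∧ a * b * cp B ∈ Sset B H := by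
  obtain ⟨u, rfl⟩ := tp_surj B a ha.1 (DRD.InG.det ha)
  obtain ⟨v, rfl⟩ := tp_surj B b hb.1 (DRD.InG.det hb)
  rw [mem_Sset B hdet] at ha' hb'
  rw [tp_pinv, ← tp_mul, ← tp_mul, mem_Sset B hdet, mem_Sset B hdet]
  exact ⟨H.mul_mem ha' (H.inv_mem hb'), H.mul_mem ha' hb'⟩

/-- No proper subtorsor. -/
theorem cyTorsor (B : Bas g ψ)
    (hT : ∀ l, Tors (2 * g l) (ψ l) (2 * Real.pi * Complex.I) (Per (2 * g l) (ψ l)))
    (hQ : ∀ n, Even n → (Qm n ℂ).det ≠ 0) (D₀ : ℕ)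
    (hUB : ∀ H : Set (Pt g), GrpS (wt g) H → Inf1 H → Dns D₀ (wt g) H →
      ∀ a, InG (wt g) a → a ∈ H)
    (htr : Transcendental ℚ (2 * Real.pi * Complex.I : ℂ))
    (L : IntermediateField ℚ ℂ) (hL : ∀ a ∈ L, IsAlgebraic ℚ a)
    (hrel : ∀ P : MvPolynomial (Crf g) L, P.totalDegree ≤ D₀ →
      MvPolynomial.aeval (CYP.tpt (n := fun l => 2 * g l) (2 * Real.pi * Complex.I)
        (fun l => Per (2 * g l) (ψ l))) P = (0 : ℂ) →
      ∀ (lam : ℂ) (X : ∀ l, Matrix (Fin (2 * g l)) (Fin (2 * g l)) ℂ), lam ≠ 0 →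
        (∀ l, Tors (2 * g l) (ψ l) lam (X l)) →
        MvPolynomial.aeval (CYP.tpt (n := fun l => 2 * g l) lam X) P = (0 : ℂ))
    (H : Subgroup (Aut (fun l => 2 * g l)))
    (hH : IsTorsor (fun l => 2 * g l) (fun l => (ψ l : ℂ)) L H) (x : Aut (fun l => 2 * g l))
    (hx : ∀ l, SimilR (2 * g l) (ψ l) (x.1 : ℂ)
      (x.2 l : Matrix (Fin (2 * g l)) (Fin (2 * g l)) ℂ)) : x ∈ H := by
  obtain ⟨E, hE⟩ := hH
  have hdet := cp_det B hT hQ
  have hcS : cp B ∈ Sset B H := ⟨1, H.one_mem, by rw [tp_one, one_mul]⟩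
  have hxG : InG (wt g) (tp B x) := ⟨x.1.ne_zero, fun l =>
    (simil_cj B (x.1 : ℂ) (fun l => (x.2 l : Matrix (Fin (2 * g l)) (Fin (2 * g l)) ℂ)) l).2
      (hx l)⟩
  have hcl := Sset_closed B hdet L H E hE
  have hfin := torsor (w := wt g) D₀ hUB L hL (cp B) htr hdet
    (fun l => (Qm (2 * g l) ℚ).submatrix (eq2 (g l)) (eq2 (g l))) (cp_rel B hT)
    (fun P hP hP0 a ha => cp_hrel B hT D₀ L hrel P hP hP0 a ha) (Sset B H)
    ((MvPolynomial.bind₁ (sE L B.E)) '' E) hcl hcS (Sset_cos B hdet H) (tp B x) hxG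
  exact (mem_Sset B hdet H x).1 hfin

end

end Pool.Agent.DRC
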