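import Pool.Agent.CYD.Main
import Pool.Agent.UBD.Main
import Pool.Agent.DRC.CyMain
import Pool.Agent.Lib70.PiTranscendental
import Pool.Agent.DRD.Full

set_option autoImplicit false

/-!
# The final theorem for the Dwork pencils
-/

open scoped BigOperators Topology

namespace Pool.Agent.DRC

open Pool.Agent.HGP (Ix Simil)
open Pool.Agent.CYP (Rm Qm Tors Per)
open Pool.Agent.UBD (Pt Crd Pol ev InG GrpS Dns Inf1 Stmt_UB)
open Pool.Agent.CYD (Stmt_FinY)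

noncomputable section

/-- The statement. -/
def StatementDRC : Prop := ∀ (nF : ℕ) (G : Fin nF → ℕ), (∀ a, 0 < G a) →
  ∀ (r : ℕ) (φ : Fin r → Fin nF) (D : ℕ), ∃ δ : ℝ, 0 < δ ∧ ∃ n₀ : ℕ, ∀ n : ℕ, n₀ ≤ n →
  ∃ S : Finset ℚ, S.card ≤ r * (1 + ∑ a, G a * (2 * G a + 1)) ∧
    ∀ ρ : Fin r → ℚ, Function.Injective ρ →
    (∀ i, 0 < ρ i ∧ ρ i ∉ S ∧ ((ρ i).num : ℝ) ≤ (n : ℝ) ^ δ ∧
      ((ρ i).den : ℝ) ≤ (n : ℝ) ^ δ) →
    ∀ (L : IntermediateField ℚ ℂ), FiniteDimensional ℚ L → Module.finrank ℚ L ≤ D →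
    (∀ H : Subgroup (Aut (fun l => 2 * G (φ l))),
      IsTorsor (fun l => 2 * G (φ l)) (fun l => ((ρ l / n : ℚ) : ℂ)) L H →
      ∀ x : Aut (fun l => 2 * G (φ l)), (∀ l, SimilR (2 * G (φ l)) ((ρ l / n : ℚ) : ℂ) (x.1 : ℂ)
        (x.2 l : Matrix (Fin (2 * G (φ l))) (Fin (2 * G (φ l))) ℂ)) → x ∈ H) ∧
    ∀ (m : ℕ) (k : ℤ) (i : Fin m → Fin r) (α : (∀ s, Fin (2 * G (φ (i s)))) → ℂ),
      IsDRB (fun l => 2 * G (φ l)) (fun l => ((ρ l / n : ℚ) : ℂ)) L m k i α →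
      IsHodge (fun l => 2 * G (φ l)) (fun l => ((ρ l / n : ℚ) : ℂ)) m k i α

theorem final_proof (hF : Stmt_FinY) (hUB : Stmt_UB)
    (hQ : ∀ n, Even n → (Qm n ℂ).det ≠ 0)
    (hT : ∀ (n : ℕ), 0 < n → Even n → ∀ ψ : ℂ, ‖ψ‖ < 1 →
      Tors n ψ (2 * Real.pi * Complex.I) (Per n ψ)) : StatementDRC := by
  intro nF G hG r φ D
  obtain ⟨D₀, hD₀⟩ := hUB r (fun l => G (φ l)) (wt (fun l => G (φ l))) (fun l => hG (φ l))
  obtain ⟨δ, hδ, n₀, hn⟩ := hF nF G hG r φ (max D D₀)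
  refine ⟨δ, hδ, n₀, fun n hn' => ?_⟩
  obtain ⟨S, hS, hρ⟩ := hn n hn'
  refine ⟨S, hS, fun ρ h1 h2 L hLf hLD => ?_⟩
  obtain ⟨hψ, hrel⟩ := hρ ρ h1 h2
  have hLalg : ∀ a ∈ L, IsAlgebraic ℚ a := by
    intro a ha
    have h1 : IsAlgebraic ℚ (⟨a, ha⟩ : L) := Algebra.IsAlgebraic.isAlgebraic _
    exact h1.algebraMap (A := ℂ)
  have hq : ∀ l, (ρ l / n) ^ (2 * G (φ l) + 1) ≠ 1 := by
    intro l h0
    have h3 : (((ρ l / n : ℚ) : ℂ)) ^ (2 * G (φ l) + 1) = 1 := by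
      rw [← Rat.cast_pow, h0, Rat.cast_one]
    have h4 := congrArg norm h3
    rw [norm_pow, norm_one] at h4
    exact absurd h4 (ne_of_lt (pow_lt_one₀ (norm_nonneg _) (hψ l) (Nat.succ_ne_zero _)))
  choose F E hFE hEF hrl htri using fun l => cyFQ (G (φ l)) (ρ l / n) (hq l)
  let B : Bas (fun l => G (φ l)) (fun l => ρ l / n) := ⟨F, E, hFE, hEF, hrl, htri⟩
  have hTl : ∀ l, Tors (2 * G (φ l)) ((ρ l / n : ℚ) : ℂ) (2 * Real.pi * Complex.I)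
      (Per (2 * G (φ l)) ((ρ l / n : ℚ) : ℂ)) := fun l =>
    hT _ (Nat.mul_pos two_pos (hG (φ l))) (even_two_mul _) _ (hψ l)
  have hrel' := fun P hP => hrel L hLf (hLD.trans (le_max_left _ _)) P
    (le_trans hP (le_max_right D D₀))
  exact ⟨fun H hH x hx => cyTorsor B hTl hQ D₀ hD₀ DRD.tr L hLalg hrel' H hH x hx,
    fun m k i α hα => cyClass B (fun l => hG (φ l)) hTl hQ D₀ hD₀ DRD.tr L hLalg hrel' m k i α
      hα⟩

theorem final : StatementDRC :=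
  final_proof CYD.finy UBD.ub CYP.Main.qdet (fun n hn he ψ hψ => by
    have h := (CYP.Main.final 1 (fun _ => n) (fun _ => ⟨hn, he⟩)).1 0 ψ hψ
    exact h)

end

end Pool.Agent.DRC
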