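import Pool.Agent.DRH.Act

set_option autoImplicit false

/-!
# Tensors invariant under all tuples of similitudes of bilinear forms: weight and type
-/

open scoped BigOperators

namespace Pool.Agent.DRC

open Pool.Agent.DRH (tact tact_tact tact_one tact_smul tact_smul_right tact_diag)

noncomputable section

variable {r n : ℕ} {ι : Fin r → Type} [∀ l, Fintype (ι l)] [∀ l, DecidableEq (ι l)]

/-- The tensor `α` is multiplied by `mu ^ k` by all tuples of similitudes `h l` of the forms
`R l`, with the multipliers `mu ^ (w l)`. -/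
def Inv (R : ∀ l, Matrix (ι l) (ι l) ℂ) (w : Fin r → ℕ) (k : ℤ) (i : Fin n → Fin r)
    (α : (∀ s, ι (i s)) → ℂ) : Prop :=
  ∀ (mu : ℂ) (h : ∀ l, Matrix (ι l) (ι l) ℂ), mu ≠ 0 →
    (∀ l, (h l).transpose * R l * h l = mu ^ (w l) • R l) → tact i h α = mu ^ k • α

lemma zpow_two_inj {a b : ℤ} (h : (2 : ℂ) ^ a = 2 ^ b) : a = b := by
  have h1 := congrArg norm h
  rw [norm_zpow, norm_zpow] at h1
  have h3 : ‖(2 : ℂ)‖ = 2 := by simp
  rw [h3] at h1
  exact zpow_right_injective₀ (by norm_num : (0 : ℝ) < 2) (by norm_num) h1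

/-- The weight. -/
theorem weight {R : ∀ l, Matrix (ι l) (ι l) ℂ} {w : Fin r → ℕ} {k : ℤ} {i : Fin n → Fin r}
    {α : (∀ s, ι (i s)) → ℂ} (h : Inv R w k i α) (I : ∀ s, ι (i s)) (hI : α I ≠ 0) :
    ((∑ s, w (i s) : ℕ) : ℤ) = 2 * k := by
  have h1 := h (2 ^ 2) (fun l => (2 : ℂ) ^ (w l) • 1) (pow_ne_zero _ two_ne_zero) (fun l => by
    rw [Matrix.transpose_smul, Matrix.transpose_one, Matrix.smul_mul, Matrix.smul_mul,
      Matrix.mul_smul, Matrix.one_mul, Matrix.mul_one, smul_smul, ← pow_mul, ← pow_add]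
    congr 2
    ring)
  have h2 := congrFun h1 I
  rw [tact_smul, tact_one, Pi.smul_apply, Pi.smul_apply, smul_eq_mul, smul_eq_mul] at h2
  have h3 := mul_right_cancel₀ hI h2
  rw [Finset.prod_pow_eq_pow_sum] at h3
  apply zpow_two_inj
  rw [zpow_natCast, h3, zpow_mul]
  norm_num

/-- The type: `F l` is a matrix whose columns form a basis adapted to the forms and to the Hodge
filtration; `p l` are the Hodge numbers `p` of the columns; `lev l` is the index of the filtration
of the rows. -/
theorem type {κ : Fin r → Type} [∀ l, Fintype (κ l)] [∀ l, DecidableEq (κ l)]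
    {R : ∀ l, Matrix (ι l) (ι l) ℂ} {w : Fin r → ℕ} {k : ℤ} {i : Fin n → Fin r}
    {α : (∀ s, ι (i s)) → ℂ} (h : Inv R w k i α) (F : ∀ l, Matrix (ι l) (κ l) ℂ)
    (E : ∀ l, Matrix (κ l) (ι l) ℂ) (J : ∀ l, Matrix (κ l) (κ l) ℂ)
    (hFE : ∀ l, F l * E l = 1) (hEF : ∀ l, E l * F l = 1)
    (hR : ∀ l, F l * J l * (F l).transpose = R l)
    (p : ∀ l, κ l → ℕ) (lev : ∀ l, ι l → ℕ) (hJ : ∀ l a b, J l a b ≠ 0 → p l a + p l b = w l)
    (hlev : ∀ l a b, F l a b ≠ 0 → lev l a + p l b ≤ w l) (I : ∀ s, ι (i s))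
    (hI : α I ≠ 0) : ((∑ s, lev (i s) (I s) : ℕ) : ℤ) ≤ k := by
  classical
  have hFE' : ∀ l, (E l).transpose * (F l).transpose = 1 := fun l => by
    rw [← Matrix.transpose_mul, hFE, Matrix.transpose_one]
  have hEF' : ∀ l, (F l).transpose * (E l).transpose = 1 := fun l => by
    rw [← Matrix.transpose_mul, hEF, Matrix.transpose_one]
  set d : ∀ l, κ l → ℂ := fun l a => 2 ^ (p l a) with hd
  set c : ∀ l, Matrix (ι l) (ι l) ℂ :=
    fun l => (E l).transpose * Matrix.diagonal (d l) * (F l).transpose with hc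
  have hDJD : ∀ l, Matrix.diagonal (d l) * J l * Matrix.diagonal (d l) = (2 : ℂ) ^ (w l) • J l := by
    intro l
    ext a b
    rw [Matrix.mul_diagonal, Matrix.diagonal_mul, Matrix.smul_apply, smul_eq_mul]
    by_cases hab : J l a b = 0
    · rw [hab]; ring
    · rw [hd]
      simp only
      rw [← hJ l a b hab, pow_add]
      ring
  have hcc : ∀ l, (c l).transpose * R l * c l = (2 : ℂ) ^ (w l) • R l := by
    intro l
    rw [hc]
    simp only [Matrix.transpose_mul, Matrix.diagonal_transpose, Matrix.transpose_transpose]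
    rw [← hR l]
    calc F l * (Matrix.diagonal (d l) * E l) * (F l * J l * (F l).transpose) *
          ((E l).transpose * Matrix.diagonal (d l) * (F l).transpose)
        = F l * (Matrix.diagonal (d l) * (E l * F l) * J l *
            ((F l).transpose * (E l).transpose) * Matrix.diagonal (d l)) * (F l).transpose := by
          simp only [Matrix.mul_assoc]
      _ = F l * (Matrix.diagonal (d l) * J l * Matrix.diagonal (d l)) * (F l).transpose := by
          rw [hEF, hEF', Matrix.mul_one, Matrix.mul_one]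
      _ = (2 : ℂ) ^ (w l) • (F l * J l * (F l).transpose) := by
          rw [hDJD, Matrix.mul_smul, Matrix.smul_mul]
  have h1 := h 2 c two_ne_zero hcc
  set β := tact i (fun l => (E l).transpose) α with hβ
  have hαβ : tact i (fun l => (F l).transpose) β = α := by
    rw [hβ, tact_tact]
    have e1 : (fun l => (E l).transpose * (F l).transpose) =
        fun l => (1 : Matrix (ι l) (ι l) ℂ) := funext hFE'
    rw [e1, tact_one]
  have h2 : tact i (fun l => (F l).transpose) (tact i (fun l => Matrix.diagonal (d l)) β) =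
      tact i (fun l => (F l).transpose) ((2 : ℂ) ^ k • β) := by
    rw [tact_smul_right, hαβ, ← h1, hβ, tact_tact, tact_tact]
    congr 1
    funext l
    rw [hc]
    simp only [Matrix.mul_assoc]
  have hinv : ∀ γ : (∀ s, κ (i s)) → ℂ,
      tact i (fun l => (E l).transpose) (tact i (fun l => (F l).transpose) γ) = γ := by
    intro γ
    rw [tact_tact]
    have e2 : (fun l => (F l).transpose * (E l).transpose) =
        fun l => (1 : Matrix (κ l) (κ l) ℂ) := funext hEF'
    rw [e2, tact_one]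
  have h3 : tact i (fun l => Matrix.diagonal (d l)) β = (2 : ℂ) ^ k • β := by
    have e1 := congrArg (tact i (fun l => (E l).transpose)) h2
    rw [hinv, hinv] at e1
    exact e1
  have h4 : ∀ I', β I' ≠ 0 → ((∑ s, p (i s) (I' s) : ℕ) : ℤ) = k := by
    intro I' hI'
    have e1 := congrFun h3 I'
    rw [tact_diag, Pi.smul_apply, smul_eq_mul, mul_comm] at e1
    have e2 := mul_right_cancel₀ hI' e1
    rw [hd] at e2
    simp only at e2
    rw [Finset.prod_pow_eq_pow_sum] at e2
    apply zpow_two_inj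
    rw [zpow_natCast]
    exact e2
  have h5 : ∃ I', β I' * ∏ s, (F (i s)).transpose (I' s) (I s) ≠ 0 := by
    by_contra hcon
    push Not at hcon
    apply hI
    rw [← hαβ]
    unfold tact
    exact Finset.sum_eq_zero fun I' _ => hcon I'
  obtain ⟨I', hI'⟩ := h5
  have h6 := h4 I' (left_ne_zero_of_mul hI')
  have h7 := right_ne_zero_of_mul hI'
  rw [Finset.prod_ne_zero_iff] at h7
  have h8 : ∀ s, lev (i s) (I s) + p (i s) (I' s) ≤ w (i s) := fun s =>
    hlev _ _ _ (h7 s (Finset.mem_univ s))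
  have h9 : ∑ s, lev (i s) (I s) + ∑ s, p (i s) (I' s) ≤ ∑ s, w (i s) := by
    rw [← Finset.sum_add_distrib]
    exact Finset.sum_le_sum fun s _ => h8 s
  have h10 := weight h I hI
  have h11 : ((∑ s, lev (i s) (I s) : ℕ) : ℤ) + ((∑ s, p (i s) (I' s) : ℕ) : ℤ) ≤
      ((∑ s, w (i s) : ℕ) : ℤ) := by exact_mod_cast h9
  omega

end

end Pool.Agent.DRC
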