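import Pool.Agent.CYP.FMAT
import Pool.Agent.DRC.Abs

set_option autoImplicit false

/-!
# The basis adapted to the intersection form and the Hodge filtration for the Dwork families
-/

open scoped BigOperators
open Polynomial

namespace Pool.Agent.DRC

open Pool.Agent.HGP (Ix)
open Pool.Agent.CYP (Rm)
open Pool.Agent.CYP.FMAT_

noncomputable section

/-- The Hodge numbers of the columns. -/
def pq (g : ℕ) : Ix g → ℕ := Sum.elim (fun a => 2 * g - 1 - (a : ℕ)) (fun a => (a : ℕ))

lemma J_pq (g : ℕ) (a b : Ix g) (h : Matrix.J (Fin g) ℂ a b ≠ 0) : pq g a + pq g b = 2 * g - 1 := by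
  rcases a with a | a <;> rcases b with b | b
  · simp [Matrix.J] at h
  · have hab : a = b := by
      by_contra hne
      apply h
      simp [Matrix.J, hne]
    subst hab
    simp only [pq, Sum.elim_inl, Sum.elim_inr]
    have := a.2
    omega
  · have hab : a = b := by
      by_contra hne
      apply h
      simp [Matrix.J, hne]
    subst hab
    simp only [pq, Sum.elim_inl, Sum.elim_inr]
    have := a.2
    omega
  · simp [Matrix.J] at h

lemma Fs_tri (g : ℕ) (x y : Ix g) (h : Fs g x y ≠ 0) :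
    ((eq2 g x : Fin (2 * g)) : ℕ) + pq g y ≤ 2 * g - 1 := by
  rcases x with a | a <;> rcases y with b | b
  · have hab : a = b := by
      by_contra hne
      apply h
      simp [Fs, hne]
    subst hab
    rw [eq2_inl]
    simp only [pq, Sum.elim_inl]
    have := a.2
    omega
  · rw [eq2_inl]
    simp only [pq, Sum.elim_inr]
    have := a.2
    have := b.2
    omega
  · exfalso
    apply h
    simp [Fs]
  · rw [eq2_inr]
    simp only [pq, Sum.elim_inr]
    have hab : ¬ (2 * g ≤ (b : ℕ) + (g + (a : ℕ))) := by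
      intro hle
      apply h
      show (-(Yb g).transpose) a b = 0
      rw [Matrix.neg_apply, Matrix.transpose_apply]
      show - rp (2 * g) b (g + a) = 0
      rw [rp_zero hle, neg_zero]
    omega

/-- The adapted basis. -/
theorem cyF (g : ℕ) (ψ : ℂ) (hψ : ψ ^ (2 * g + 1) ≠ 1) :
    ∃ (F : Matrix (Fin (2 * g)) (Ix g) ℂ) (E : Matrix (Ix g) (Fin (2 * g)) ℂ),
      F * E = 1 ∧ E * F = 1 ∧ F * Matrix.J (Fin g) ℂ * F.transpose = Rm (2 * g) ψ ∧
      ∀ a b, F a b ≠ 0 → (a : ℕ) + pq g b ≤ 2 * g - 1 := by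
  set f : ℤ[X] →+* ℂ := ((aeval ψ : ℤ[X] →ₐ[ℤ] ℂ) : ℤ[X] →+* ℂ) with hf
  set A : Matrix (Ix g) (Ix g) ℂ := (Fs g).map f with hA
  have hAdet : IsUnit A.det := by
    obtain ⟨ε, hε, hdet⟩ := det_Fs g
    have h1 : A.det = f ((Fs g).det) := (RingHom.map_det f (Fs g)).symm
    rw [h1, hdet, map_mul, map_pow, map_sub, map_one, map_pow, isUnit_iff_ne_zero]
    have h2 : f ε * f ε = 1 := by rw [← map_mul, hε, map_one]
    have h3 : f ε ≠ 0 := by
      intro h0
      rw [h0, zero_mul] at h2
      exact zero_ne_one h2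
    have h4 : f X = ψ := aeval_X ψ
    rw [h4]
    exact mul_ne_zero h3 (pow_ne_zero _ (sub_ne_zero.2 hψ.symm))
  refine ⟨A.submatrix (eq2 g).symm id, (A⁻¹).submatrix id (eq2 g).symm, ?_, ?_, ?_, ?_⟩
  · ext a b
    have h1 : (A.submatrix (eq2 g).symm id * (A⁻¹).submatrix id (eq2 g).symm) a b =
        (A * A⁻¹) ((eq2 g).symm a) ((eq2 g).symm b) := rfl
    rw [h1, Matrix.mul_nonsing_inv _ hAdet]
    simp only [Matrix.one_apply, EmbeddingLike.apply_eq_iff_eq]
  · have h2 : (A⁻¹).submatrix id (eq2 g).symm * A.submatrix (eq2 g).symm id = A⁻¹ * A := by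
      refine Matrix.ext fun a b => ?_
      rw [Matrix.mul_apply, Matrix.mul_apply]
      exact Equiv.sum_comp (eq2 g).symm (fun x => A⁻¹ a x * A x b)
    rw [h2, Matrix.nonsing_inv_mul _ hAdet]
  · have hJ : Matrix.J (Fin g) ℂ = (Matrix.J (Fin g) ℤ[X]).map f := by
      unfold Matrix.J
      rw [Matrix.fromBlocks_map]
      congr 1
      · ext i j; simp
      · ext i j
        by_cases h : i = j <;> simp [h]
      · ext i j
        by_cases h : i = j <;> simp [h, Matrix.one_apply]
      · ext i j; simp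
    ext a b
    have h1 : (A.submatrix (eq2 g).symm id * Matrix.J (Fin g) ℂ *
        (A.submatrix (eq2 g).symm id).transpose) a b =
        (A * Matrix.J (Fin g) ℂ * A.transpose) ((eq2 g).symm a) ((eq2 g).symm b) := rfl
    rw [h1, hJ, hA, ← Matrix.transpose_map, ← Matrix.map_mul, ← Matrix.map_mul, Matrix.map_apply,
      Fs_entry, Equiv.apply_symm_apply, Equiv.apply_symm_apply]
    exact aeval_rp (2 * g) ψ a b
  · intro a b hab
    have h1 : Fs g ((eq2 g).symm a) b ≠ 0 := by
      intro h0
      apply hab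
      show f (Fs g ((eq2 g).symm a) b) = 0
      rw [h0, map_zero]
    have h2 := Fs_tri g _ _ h1
    rw [Equiv.apply_symm_apply] at h2
    exact h2

end

end Pool.Agent.DRC
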