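import Pool.Agent.DRC.CyF

set_option autoImplicit false

/-!
# The adapted basis over the rational numbers
-/

open scoped BigOperators
open Polynomial

namespace Pool.Agent.DRC

open Pool.Agent.HGP (Ix)
open Pool.Agent.CYP (Rm)
open Pool.Agent.CYP.FMAT_

noncomputable section

/-- The adapted basis, rational parameter. -/
theorem cyFQ (g : ℕ) (q : ℚ) (hq : q ^ (2 * g + 1) ≠ 1) :
    ∃ (F : Matrix (Fin (2 * g)) (Ix g) ℚ) (E : Matrix (Ix g) (Fin (2 * g)) ℚ),
      F * E = 1 ∧ E * F = 1 ∧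
      F.map (algebraMap ℚ ℂ) * Matrix.J (Fin g) ℂ * (F.map (algebraMap ℚ ℂ)).transpose =
        Rm (2 * g) (q : ℂ) ∧
      ∀ a b, F a b ≠ 0 → (a : ℕ) + pq g b ≤ 2 * g - 1 := by
  set f : ℤ[X] →+* ℚ := ((aeval q : ℤ[X] →ₐ[ℤ] ℚ) : ℤ[X] →+* ℚ) with hf
  set f' : ℤ[X] →+* ℂ := ((aeval (q : ℂ) : ℤ[X] →ₐ[ℤ] ℂ) : ℤ[X] →+* ℂ) with hf'
  have hff : ∀ p : ℤ[X], algebraMap ℚ ℂ (f p) = f' p := by
    intro p
    have h1 : (aeval (algebraMap ℚ ℂ q) p : ℂ) = algebraMap ℚ ℂ (aeval q p) :=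
      aeval_algebraMap_apply ℂ q p
    exact h1.symm
  set A : Matrix (Ix g) (Ix g) ℚ := (Fs g).map f with hA
  have hA' : A.map (algebraMap ℚ ℂ) = (Fs g).map f' := by
    ext a b
    exact hff _
  have hAdet : IsUnit A.det := by
    obtain ⟨ε, hε, hdet⟩ := det_Fs g
    have h1 : A.det = f ((Fs g).det) := (RingHom.map_det f (Fs g)).symm
    rw [h1, hdet, map_mul, map_pow, map_sub, map_one, map_pow, isUnit_iff_ne_zero]
    have h2 : f ε * f ε = 1 := by rw [← map_mul, hε, map_one]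
    have h3 : f ε ≠ 0 := by
      intro h0
      rw [h0, zero_mul] at h2
      exact zero_ne_one h2
    have h4 : f X = q := aeval_X q
    rw [h4]
    exact mul_ne_zero h3 (pow_ne_zero _ (sub_ne_zero.2 hq.symm))
  refine ⟨A.submatrix (eq2 g).symm id, (A⁻¹).submatrix id (eq2 g).symm, ?_, ?_, ?_, ?_⟩
  · ext a b
    have h1 : (A.submatrix (eq2 g).symm id * (A⁻¹).submatrix id (eq2 g).symm) a b =
        (A * A⁻¹) ((eq2 g).symm a) ((eq2 g).symm b) := rfl
    rw [h1, Matrix.mul_nonsing_inv _ hAdet]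
    simp only [Matrix.one_apply, EmbeddingLike.apply_eq_iff_eq]
  · have h2 : (A⁻¹).submatrix id (eq2 g).symm * A.submatrix (eq2 g).symm id = A⁻¹ * A := by
      refine Matrix.ext fun a b => ?_
      rw [Matrix.mul_apply, Matrix.mul_apply]
      exact Equiv.sum_comp (eq2 g).symm (fun x => A⁻¹ a x * A x b)
    rw [h2, Matrix.nonsing_inv_mul _ hAdet]
  · have hJ : Matrix.J (Fin g) ℂ = (Matrix.J (Fin g) ℤ[X]).map f' := by
      unfold Matrix.J
      rw [Matrix.fromBlocks_map]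
      congr 1
      · ext i j; simp
      · ext i j
        by_cases h : i = j <;> simp [h]
      · ext i j
        by_cases h : i = j <;> simp [h, Matrix.one_apply]
      · ext i j; simp
    ext a b
    have h1 : ((A.submatrix (eq2 g).symm id).map (algebraMap ℚ ℂ) * Matrix.J (Fin g) ℂ *
        ((A.submatrix (eq2 g).symm id).map (algebraMap ℚ ℂ)).transpose) a b =
        (A.map (algebraMap ℚ ℂ) * Matrix.J (Fin g) ℂ * (A.map (algebraMap ℚ ℂ)).transpose)
          ((eq2 g).symm a) ((eq2 g).symm b) := rfl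
    rw [h1, hJ, hA', ← Matrix.transpose_map, ← Matrix.map_mul, ← Matrix.map_mul,
      Matrix.map_apply, Fs_entry, Equiv.apply_symm_apply, Equiv.apply_symm_apply]
    exact aeval_rp (2 * g) (q : ℂ) a b
  · intro a b hab
    have h1 : Fs g ((eq2 g).symm a) b ≠ 0 := by
      intro h0
      apply hab
      show f (Fs g ((eq2 g).symm a) b) = 0
      rw [h0, map_zero]
    have h2 := Fs_tri g _ _ h1
    rw [Equiv.apply_symm_apply] at h2
    exact h2

end

end Pool.Agent.DRC
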