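import Pool.Agent.CYP.Sealed

/-!
# De Rham–Betti classes and torsors over number fields for the Dwork pencils

The varieties are the Calabi–Yau varieties `X_l = X_ψ`, `ψ = ψ l`, of dimension `N l - 1`
(`N l` even) of `CYP.Sealed`, `H_l` is the part of rank `N l` of the middle cohomology of `X_l`
which is invariant under the diagonal symmetries. The space of the classes is
`H_{i_1} ⊗ ⋯ ⊗ H_{i_n} (k)`. Its de Rham realization has the basis of the tensor products of the
residues of `∂_ψ ^ a (Ω / F_ψ)`, `a < N l`, its Betti realization consists of the rational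
functions of the `n`-tuples of cycles (the columns of the period matrices).
-/

open scoped BigOperators
open Pool.Agent.CYP (Per Rm)

namespace Pool.Agent.DRC

noncomputable section

/-- `h` is a similitude of the form `Rm n ψ` with multiplier `mu ^ (n - 1)`: it preserves the cup
product, with values in `1 (- (n - 1))`, if `1 (-1)` is multiplied by `mu`. -/
def SimilR (n : ℕ) (ψ mu : ℂ) (h : Matrix (Fin n) (Fin n) ℂ) : Prop :=
  h.transpose * Rm n ψ * h = mu ^ (n - 1) • Rm n ψ

/-- `α = (α_I)` are the coordinates of a de Rham–Betti class over `L` on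
`H_{i_1} ⊗ ⋯ ⊗ H_{i_n} (k)`: they are in `L`, and on all `n`-tuples of the cycles the class takes
values `(2 π i) ^ k b` with `b` rational. -/
def IsDRB {r : ℕ} (N : Fin r → ℕ) (ψ : Fin r → ℂ) (L : IntermediateField ℚ ℂ) (n : ℕ) (k : ℤ)
    (i : Fin n → Fin r) (α : (∀ s, Fin (N (i s))) → ℂ) : Prop :=
  (∀ I, α I ∈ L) ∧ ∀ J : (∀ s, Fin (N (i s))), ∃ b : ℚ,
    ∑ I, α I * ∏ s, Per (N (i s)) (ψ (i s)) (I s) (J s) =
      (2 * Real.pi * Complex.I) ^ k * (b : ℂ)

/-- The class is invariant under all tuples of similitudes with multipliers `mu ^ (N l - 1)`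
(acting on the Tate twist by `mu`), and it is of Hodge type `(0, 0)`: its weight `0` and it is in
the step `0` of the Hodge filtration (`Res ∂_ψ ^ a (Ω / F_ψ)` is in the step `N l - 1 - a` of the
filtration of `H_l`). -/
def IsHodge {r : ℕ} (N : Fin r → ℕ) (ψ : Fin r → ℂ) (n : ℕ) (k : ℤ)
    (i : Fin n → Fin r) (α : (∀ s, Fin (N (i s))) → ℂ) : Prop :=
  (∀ (mu : ℂ) (h : ∀ l, Matrix (Fin (N l)) (Fin (N l)) ℂ), mu ≠ 0 →
    (∀ l, SimilR (N l) (ψ l) mu (h l)) →
    ∀ I', ∑ I, α I * ∏ s, h (i s) (I s) (I' s) = mu ^ k * α I') ∧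
  ∀ I, α I ≠ 0 → ((∑ s, (N (i s) - 1) : ℕ) : ℤ) = 2 * k ∧
    k ≤ ((∑ s, (N (i s) - 1 - (I s : ℕ)) : ℕ) : ℤ)

/-- The group of all automorphisms of the de Rham side of `1 (1) ⊕ H_1 ⊕ ⋯ ⊕ H_r` which preserve
the summands. -/
abbrev Aut {r : ℕ} (N : Fin r → ℕ) : Type := ℂˣ × (∀ l, (Matrix (Fin (N l)) (Fin (N l)) ℂ)ˣ)

/-- The orbit `H c` of the point `c = (2 π i, period matrices)` under the group `H` is the
set of the common zeros (among the points of the orbit of `c` under all automorphisms) of some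
polynomials with coefficients in `L`: it is a torsor over `L` under `H`, which contains `c`. -/
def IsTorsor {r : ℕ} (N : Fin r → ℕ) (ψ : Fin r → ℂ) (L : IntermediateField ℚ ℂ)
    (H : Subgroup (Aut N)) : Prop :=
  ∃ E : Set (MvPolynomial (Option (Σ l : Fin r, Fin (N l) × Fin (N l))) L),
    ∀ x : Aut N, x ∈ H ↔ ∀ e ∈ E,
      MvPolynomial.aeval (CYP.tpt ((x.1 : ℂ) * (2 * Real.pi * Complex.I))
        (fun l => (x.2 l : Matrix (Fin (N l)) (Fin (N l)) ℂ) * Per (N l) (ψ l))) e = (0 : ℂ)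

end

end Pool.Agent.DRC
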