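import Pool.Agent.DRC.CyQ
import Pool.Agent.DRC.Sealed
import Pool.Agent.DRD.Inv

set_option autoImplicit false

/-!
# Torsors and classes for the Dwork pencils, from relations of bounded degree
-/

open scoped BigOperators

namespace Pool.Agent.DRC

open Pool.Agent.HGP (Ix Simil)
open Pool.Agent.CYP (Rm Qm Tors Per)
open Pool.Agent.CYP.FMAT_ (eq2)
open Pool.Agent.UBD (Pt Crd Pol ev InG GrpS Dns Inf1 Stmt_UB)
open Pool.Agent.DRD (torsor pinv mul_pinv pinv_mul)
open Pool.Agent.DRH (tact tact_tact tact_one)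

noncomputable section

/-- The coordinates of the points with rectangular index set. -/
abbrev Crf {r : ℕ} (g : Fin r → ℕ) : Type :=
  Option (Σ l : Fin r, Fin (2 * g l) × Fin (2 * g l))

section sub

variable {r : ℕ} {g : Fin r → ℕ}

/-- Substitution `X_l ↦ Fᵀ X_l`, on the coordinates. -/
def sF (L : IntermediateField ℚ ℂ) (F : ∀ l, Matrix (Fin (2 * g l)) (Ix (g l)) ℚ) :
    Crd g → MvPolynomial (Crf g) L
  | none => MvPolynomial.X none
  | some p => ∑ j, MvPolynomial.C (algebraMap ℚ L (F p.1 j p.2.1)) *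
      MvPolynomial.X (some ⟨p.1, (j, eq2 (g p.1) p.2.2)⟩)

/-- Substitution `Y_l ↦ Eᵀ Y_l`, on the coordinates. -/
def sE (L : IntermediateField ℚ ℂ) (E : ∀ l, Matrix (Ix (g l)) (Fin (2 * g l)) ℚ) :
    Crf g → MvPolynomial (Crd g) L
  | none => MvPolynomial.X none
  | some p => ∑ j, MvPolynomial.C (algebraMap ℚ L (E p.1 j p.2.1)) *
      MvPolynomial.X (some ⟨p.1, (j, (eq2 (g p.1)).symm p.2.2)⟩)

/-- `X ↦ Fᵀ X`, reindexed. -/
def toIx (F : ∀ l, Matrix (Fin (2 * g l)) (Ix (g l)) ℚ)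
    (X : ∀ l, Matrix (Fin (2 * g l)) (Fin (2 * g l)) ℂ) (l : Fin r) :
    Matrix (Ix (g l)) (Ix (g l)) ℂ :=
  (((F l).map (algebraMap ℚ ℂ)).transpose * X l).submatrix id (eq2 (g l))

/-- `Y ↦ Eᵀ Y`, reindexed. -/
def frIx (E : ∀ l, Matrix (Ix (g l)) (Fin (2 * g l)) ℚ)
    (Y : ∀ l, Matrix (Ix (g l)) (Ix (g l)) ℂ) (l : Fin r) :
    Matrix (Fin (2 * g l)) (Fin (2 * g l)) ℂ :=
  ((E l).map (algebraMap ℚ ℂ)).transpose * (Y l).submatrix id (eq2 (g l)).symm

lemma algL (L : IntermediateField ℚ ℂ) (q : ℚ) :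
    algebraMap L ℂ (algebraMap ℚ L q) = algebraMap ℚ ℂ q := by
  rw [← IsScalarTower.algebraMap_apply ℚ L ℂ]

lemma aeval_sF (L : IntermediateField ℚ ℂ) (F : ∀ l, Matrix (Fin (2 * g l)) (Ix (g l)) ℚ)
    (lam : ℂ) (X : ∀ l, Matrix (Fin (2 * g l)) (Fin (2 * g l)) ℂ) (P : MvPolynomial (Crd g) L) :
    MvPolynomial.aeval (CYP.tpt (n := fun l => 2 * g l) lam X)
      (MvPolynomial.bind₁ (sF L F) P) = (MvPolynomial.aeval (HGP.tpt lam (toIx F X)) P : ℂ) := by
  rw [MvPolynomial.aeval_bind₁]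
  refine congrArg (fun f => (MvPolynomial.aeval f P : ℂ)) (funext fun o => ?_)
  cases o with
  | none => rw [sF, MvPolynomial.aeval_X]; rfl
  | some p =>
    rw [sF, map_sum]
    change _ = (((F p.1).map (algebraMap ℚ ℂ)).transpose * X p.1) p.2.1 (eq2 (g p.1) p.2.2)
    rw [Matrix.mul_apply]
    refine Finset.sum_congr rfl fun j _ => ?_
    rw [map_mul, MvPolynomial.aeval_C, MvPolynomial.aeval_X, algL]
    rfl

lemma aeval_sE (L : IntermediateField ℚ ℂ) (E : ∀ l, Matrix (Ix (g l)) (Fin (2 * g l)) ℚ)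
    (lam : ℂ) (Y : ∀ l, Matrix (Ix (g l)) (Ix (g l)) ℂ) (P : MvPolynomial (Crf g) L) :
    MvPolynomial.aeval (HGP.tpt lam Y) (MvPolynomial.bind₁ (sE L E) P) =
      (MvPolynomial.aeval (CYP.tpt (n := fun l => 2 * g l) lam (frIx E Y)) P : ℂ) := by
  rw [MvPolynomial.aeval_bind₁]
  refine congrArg (fun f => (MvPolynomial.aeval f P : ℂ)) (funext fun o => ?_)
  cases o with
  | none => rw [sE, MvPolynomial.aeval_X]; rfl
  | some p =>
    rw [sE, map_sum]
    change _ = (((E p.1).map (algebraMap ℚ ℂ)).transpose *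
      (Y p.1).submatrix id (eq2 (g p.1)).symm) p.2.1 p.2.2
    rw [Matrix.mul_apply]
    refine Finset.sum_congr rfl fun j _ => ?_
    rw [map_mul, MvPolynomial.aeval_C, MvPolynomial.aeval_X, algL]
    rfl

lemma deg_sF (L : IntermediateField ℚ ℂ) (F : ∀ l, Matrix (Fin (2 * g l)) (Ix (g l)) ℚ)
    (P : MvPolynomial (Crd g) L) (D : ℕ) (hP : P.totalDegree ≤ D) :
    (MvPolynomial.bind₁ (sF L F) P).totalDegree ≤ D := by
  have h0 : ∀ o, (sF L F o).totalDegree ≤ 1 := by
    intro o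
    cases o with
    | none => rw [sF, MvPolynomial.totalDegree_X]
    | some p =>
      rw [sF]
      refine MvPolynomial.totalDegree_finsetSum_le fun l _ => ?_
      refine (MvPolynomial.totalDegree_mul _ _).trans ?_
      rw [MvPolynomial.totalDegree_C, MvPolynomial.totalDegree_X]
  rw [MvPolynomial.as_sum P, map_sum]
  refine MvPolynomial.totalDegree_finsetSum_le fun d hd => ?_
  rw [MvPolynomial.bind₁_monomial]
  refine (MvPolynomial.totalDegree_mul _ _).trans ?_
  rw [MvPolynomial.totalDegree_C, zero_add]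
  refine (MvPolynomial.totalDegree_finsetProd _ _).trans ?_
  have h1 : ∑ o ∈ d.support, (sF L F o ^ d o).totalDegree ≤ ∑ o ∈ d.support, d o := by
    refine Finset.sum_le_sum fun o _ => ?_
    refine (MvPolynomial.totalDegree_pow _ _).trans ?_
    exact (Nat.mul_le_mul_left _ (h0 o)).trans (le_of_eq (mul_one _))
  exact h1.trans ((MvPolynomial.le_totalDegree hd).trans hP)

end sub

/-- The data of the adapted bases. -/
structure Bas {r : ℕ} (g : Fin r → ℕ) (ψ : Fin r → ℚ) where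
  F : ∀ l, Matrix (Fin (2 * g l)) (Ix (g l)) ℚ
  E : ∀ l, Matrix (Ix (g l)) (Fin (2 * g l)) ℚ
  FE : ∀ l, F l * E l = 1
  EF : ∀ l, E l * F l = 1
  rel : ∀ l, (F l).map (algebraMap ℚ ℂ) * Matrix.J (Fin (g l)) ℂ *
    ((F l).map (algebraMap ℚ ℂ)).transpose = Rm (2 * g l) (ψ l : ℂ)
  tri : ∀ l a b, F l a b ≠ 0 → (a : ℕ) + pq (g l) b ≤ 2 * g l - 1

section main

variable {r : ℕ} {g : Fin r → ℕ} {ψ : Fin r → ℚ}

/-- The weights. -/
abbrev wt (g : Fin r → ℕ) (l : Fin r) : ℕ := 2 * g l - 1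

lemma map_FE (B : Bas g ψ) (l : Fin r) : (B.F l).map (algebraMap ℚ ℂ) *
    (B.E l).map (algebraMap ℚ ℂ) = 1 := by
  rw [← Matrix.map_mul, B.FE]
  exact Matrix.map_one _ (map_zero _) (map_one _)

lemma map_EF (B : Bas g ψ) (l : Fin r) : (B.E l).map (algebraMap ℚ ℂ) *
    (B.F l).map (algebraMap ℚ ℂ) = 1 := by
  rw [← Matrix.map_mul, B.EF]
  exact Matrix.map_one _ (map_zero _) (map_one _)

lemma fr_to (B : Bas g ψ) (X : ∀ l, Matrix (Fin (2 * g l)) (Fin (2 * g l)) ℂ) :
    frIx B.E (toIx B.F X) = X := by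
  funext l
  unfold frIx toIx
  have h1 : ((((B.F l).map (algebraMap ℚ ℂ)).transpose * X l).submatrix id
      (eq2 (g l))).submatrix id (eq2 (g l)).symm =
      ((B.F l).map (algebraMap ℚ ℂ)).transpose * X l := by
    ext a b
    simp
  rw [h1, ← Matrix.mul_assoc, ← Matrix.transpose_mul, map_FE, Matrix.transpose_one,
    Matrix.one_mul]

/-- Conjugation. -/
def cj (B : Bas g ψ) (h : ∀ l, Matrix (Fin (2 * g l)) (Fin (2 * g l)) ℂ) (l : Fin r) :
    Matrix (Ix (g l)) (Ix (g l)) ℂ :=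
  ((B.F l).map (algebraMap ℚ ℂ)).transpose * h l * ((B.E l).map (algebraMap ℚ ℂ)).transpose

lemma to_mul (B : Bas g ψ) (h X : ∀ l, Matrix (Fin (2 * g l)) (Fin (2 * g l)) ℂ) :
    toIx B.F (fun l => h l * X l) = fun l => cj B h l * toIx B.F X l := by
  funext l
  unfold toIx cj
  have h1 : ((B.F l).map (algebraMap ℚ ℂ)).transpose * h l *
      ((B.E l).map (algebraMap ℚ ℂ)).transpose *
      (((B.F l).map (algebraMap ℚ ℂ)).transpose * X l).submatrix id (eq2 (g l)) =
      (((B.F l).map (algebraMap ℚ ℂ)).transpose * h l *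
      ((B.E l).map (algebraMap ℚ ℂ)).transpose *
      (((B.F l).map (algebraMap ℚ ℂ)).transpose * X l)).submatrix id (eq2 (g l)) := rfl
  rw [h1]
  congr 1
  calc ((B.F l).map (algebraMap ℚ ℂ)).transpose * (h l * X l)
      = ((B.F l).map (algebraMap ℚ ℂ)).transpose * h l * (((B.F l).map (algebraMap ℚ ℂ)) *
        ((B.E l).map (algebraMap ℚ ℂ))).transpose * X l := by
        rw [map_FE, Matrix.transpose_one, Matrix.mul_one, Matrix.mul_assoc]
    _ = _ := by
        rw [Matrix.transpose_mul]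
        simp only [Matrix.mul_assoc]

lemma cj_mul (B : Bas g ψ) (h h' : ∀ l, Matrix (Fin (2 * g l)) (Fin (2 * g l)) ℂ) (l : Fin r) :
    cj B (fun l => h l * h' l) l = cj B h l * cj B h' l := by
  unfold cj
  calc ((B.F l).map (algebraMap ℚ ℂ)).transpose * (h l * h' l) *
        ((B.E l).map (algebraMap ℚ ℂ)).transpose
      = ((B.F l).map (algebraMap ℚ ℂ)).transpose * h l * (((B.F l).map (algebraMap ℚ ℂ)) *
        ((B.E l).map (algebraMap ℚ ℂ))).transpose * h' l *
        ((B.E l).map (algebraMap ℚ ℂ)).transpose := by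
        rw [map_FE, Matrix.transpose_one, Matrix.mul_one]
        simp only [Matrix.mul_assoc]
    _ = _ := by
        rw [Matrix.transpose_mul]
        simp only [Matrix.mul_assoc]

lemma cj_one (B : Bas g ψ) (l : Fin r) : cj B (fun _ => 1) l = 1 := by
  unfold cj
  rw [Matrix.mul_one, ← Matrix.transpose_mul, map_EF, Matrix.transpose_one]

/-- The inverse of conjugation. -/
def cji (B : Bas g ψ) (h : ∀ l, Matrix (Ix (g l)) (Ix (g l)) ℂ) (l : Fin r) :
    Matrix (Fin (2 * g l)) (Fin (2 * g l)) ℂ :=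
  ((B.E l).map (algebraMap ℚ ℂ)).transpose * h l * ((B.F l).map (algebraMap ℚ ℂ)).transpose

lemma cj_cji (B : Bas g ψ) (h : ∀ l, Matrix (Ix (g l)) (Ix (g l)) ℂ) : cj B (cji B h) = h := by
  funext l
  unfold cj cji
  calc ((B.F l).map (algebraMap ℚ ℂ)).transpose *
        (((B.E l).map (algebraMap ℚ ℂ)).transpose * h l *
          ((B.F l).map (algebraMap ℚ ℂ)).transpose) * ((B.E l).map (algebraMap ℚ ℂ)).transpose
      = ((B.E l).map (algebraMap ℚ ℂ) * (B.F l).map (algebraMap ℚ ℂ)).transpose * h l *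
        ((B.E l).map (algebraMap ℚ ℂ) * (B.F l).map (algebraMap ℚ ℂ)).transpose := by
        simp only [Matrix.transpose_mul, Matrix.mul_assoc]
    _ = h l := by rw [map_EF, Matrix.transpose_one, Matrix.one_mul, Matrix.mul_one]

lemma cji_cj (B : Bas g ψ) (h : ∀ l, Matrix (Fin (2 * g l)) (Fin (2 * g l)) ℂ) :
    cji B (cj B h) = h := by
  funext l
  unfold cj cji
  calc ((B.E l).map (algebraMap ℚ ℂ)).transpose *
        (((B.F l).map (algebraMap ℚ ℂ)).transpose * h l *
          ((B.E l).map (algebraMap ℚ ℂ)).transpose) * ((B.F l).map (algebraMap ℚ ℂ)).transpose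
      = ((B.F l).map (algebraMap ℚ ℂ) * (B.E l).map (algebraMap ℚ ℂ)).transpose * h l *
        ((B.F l).map (algebraMap ℚ ℂ) * (B.E l).map (algebraMap ℚ ℂ)).transpose := by
        simp only [Matrix.transpose_mul, Matrix.mul_assoc]
    _ = h l := by rw [map_FE, Matrix.transpose_one, Matrix.one_mul, Matrix.mul_one]

lemma cji_mul (B : Bas g ψ) (h h' : ∀ l, Matrix (Ix (g l)) (Ix (g l)) ℂ) (l : Fin r) :
    cji B (fun l => h l * h' l) l = cji B h l * cji B h' l := by
  have h1 := cj_mul B (cji B h) (cji B h')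
  have h2 : (fun l => cj B (fun l => cji B h l * cji B h' l) l) = fun l => h l * h' l := by
    funext l
    rw [h1, cj_cji, cj_cji]
  have h3 := congrArg (cji B) h2
  have h4 := cji_cj B (fun l => cji B h l * cji B h' l)
  have h5 := congrFun (h4.symm.trans h3) l
  exact h5.symm

/-- Similitudes. -/
lemma simil_cj (B : Bas g ψ) (mu : ℂ) (h : ∀ l, Matrix (Fin (2 * g l)) (Fin (2 * g l)) ℂ)
    (l : Fin r) : Simil (mu ^ wt g l) (cj B h l) ↔ SimilR (2 * g l) (ψ l) mu (h l) := by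
  have e1 : (cj B h l).transpose * Matrix.J (Fin (g l)) ℂ * cj B h l =
      (B.E l).map (algebraMap ℚ ℂ) * ((h l).transpose * Rm (2 * g l) (ψ l : ℂ) * h l) *
        ((B.E l).map (algebraMap ℚ ℂ)).transpose := by
    unfold cj
    rw [← B.rel l]
    simp only [Matrix.transpose_mul, Matrix.transpose_transpose, Matrix.mul_assoc]
  have e2 : (B.E l).map (algebraMap ℚ ℂ) * Rm (2 * g l) (ψ l : ℂ) *
      ((B.E l).map (algebraMap ℚ ℂ)).transpose = Matrix.J (Fin (g l)) ℂ := by
    rw [← B.rel l]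
    calc (B.E l).map (algebraMap ℚ ℂ) * ((B.F l).map (algebraMap ℚ ℂ) *
          Matrix.J (Fin (g l)) ℂ * ((B.F l).map (algebraMap ℚ ℂ)).transpose) *
          ((B.E l).map (algebraMap ℚ ℂ)).transpose
        = ((B.E l).map (algebraMap ℚ ℂ) * (B.F l).map (algebraMap ℚ ℂ)) *
          Matrix.J (Fin (g l)) ℂ *
          ((B.E l).map (algebraMap ℚ ℂ) * (B.F l).map (algebraMap ℚ ℂ)).transpose := by
          simp only [Matrix.transpose_mul, Matrix.mul_assoc]
      _ = _ := by rw [map_EF, Matrix.one_mul, Matrix.transpose_one, Matrix.mul_one]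
  unfold Simil SimilR
  rw [e1]
  constructor
  · intro h1
    have h2 : (B.F l).map (algebraMap ℚ ℂ) * ((B.E l).map (algebraMap ℚ ℂ) *
        ((h l).transpose * Rm (2 * g l) (ψ l : ℂ) * h l) *
        ((B.E l).map (algebraMap ℚ ℂ)).transpose) * ((B.F l).map (algebraMap ℚ ℂ)).transpose =
        (h l).transpose * Rm (2 * g l) (ψ l : ℂ) * h l := by
      calc _ = ((B.F l).map (algebraMap ℚ ℂ) * (B.E l).map (algebraMap ℚ ℂ)) *
            ((h l).transpose * Rm (2 * g l) (ψ l : ℂ) * h l) *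
            ((B.F l).map (algebraMap ℚ ℂ) * (B.E l).map (algebraMap ℚ ℂ)).transpose := by
            simp only [Matrix.transpose_mul, Matrix.mul_assoc]
        _ = _ := by rw [map_FE, Matrix.one_mul, Matrix.transpose_one, Matrix.mul_one]
    rw [← h2, h1, Matrix.mul_smul, Matrix.smul_mul, B.rel]
  · intro h1
    rw [h1, Matrix.mul_smul, Matrix.smul_mul, e2]

/-- The bilinear relation after the transformation. -/
lemma tors_to (B : Bas g ψ) (lam : ℂ) (X : ∀ l, Matrix (Fin (2 * g l)) (Fin (2 * g l)) ℂ)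
    (l : Fin r) (hX : Tors (2 * g l) (ψ l) lam (X l)) :
    (toIx B.F X l).transpose * Matrix.J (Fin (g l)) ℂ * toIx B.F X l =
      (lam ^ wt g l) • (((Qm (2 * g l) ℚ).submatrix (eq2 (g l)) (eq2 (g l))).map
        (fun q : ℚ => (q : ℂ))) := by
  have h1 : (toIx B.F X l).transpose * Matrix.J (Fin (g l)) ℂ * toIx B.F X l =
      ((X l).transpose * Rm (2 * g l) (ψ l : ℂ) * X l).submatrix (eq2 (g l)) (eq2 (g l)) := by
    have h2 : (toIx B.F X l).transpose * Matrix.J (Fin (g l)) ℂ * toIx B.F X l =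
      ((((B.F l).map (algebraMap ℚ ℂ)).transpose * X l).transpose * Matrix.J (Fin (g l)) ℂ *
        (((B.F l).map (algebraMap ℚ ℂ)).transpose * X l)).submatrix (eq2 (g l)) (eq2 (g l)) := rfl
    rw [h2, ← B.rel l]
    congr 1
    simp only [Matrix.transpose_mul, Matrix.transpose_transpose, Matrix.mul_assoc]
  rw [h1, show (X l).transpose * Rm (2 * g l) (ψ l : ℂ) * X l = _ from hX]
  ext a b
  simp only [Matrix.submatrix_apply, Matrix.smul_apply, Matrix.map_apply, Qm, Matrix.of_apply]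
  congr 1
  split_ifs <;> push_cast <;> ring

lemma tors_fr (B : Bas g ψ) (lam : ℂ) (Y : ∀ l, Matrix (Ix (g l)) (Ix (g l)) ℂ)
    (l : Fin r) (hY : (Y l).transpose * Matrix.J (Fin (g l)) ℂ * Y l =
      (lam ^ wt g l) • (((Qm (2 * g l) ℚ).submatrix (eq2 (g l)) (eq2 (g l))).map
        (fun q : ℚ => (q : ℂ)))) : Tors (2 * g l) (ψ l) lam (frIx B.E Y l) := by
  unfold Tors
  have h1 : (frIx B.E Y l).transpose * Rm (2 * g l) (ψ l : ℂ) * frIx B.E Y l =
      ((Y l).transpose * Matrix.J (Fin (g l)) ℂ * Y l).submatrix (eq2 (g l)).symm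
        (eq2 (g l)).symm := by
    unfold frIx
    rw [← B.rel l]
    calc _ = ((Y l).submatrix id (eq2 (g l)).symm).transpose *
          (((B.E l).map (algebraMap ℚ ℂ) * (B.F l).map (algebraMap ℚ ℂ)) *
          Matrix.J (Fin (g l)) ℂ *
          ((B.E l).map (algebraMap ℚ ℂ) * (B.F l).map (algebraMap ℚ ℂ)).transpose) *
          (Y l).submatrix id (eq2 (g l)).symm := by
          simp only [Matrix.transpose_mul, Matrix.transpose_transpose, Matrix.mul_assoc]
      _ = _ := by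
          rw [map_EF, Matrix.one_mul, Matrix.transpose_one, Matrix.mul_one]
          rfl
  rw [h1, hY]
  ext a b
  simp only [Matrix.submatrix_apply, Matrix.smul_apply, Matrix.map_apply, Qm, Matrix.of_apply,
    Equiv.apply_symm_apply]
  congr 1
  split_ifs <;> push_cast <;> ring

end main

end

end Pool.Agent.DRC
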